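import Pool.Agent.Helper59.LUC.Goals

set_option autoImplicit false

namespace Pool.Agent.Helper59.LUC

/-- A positive integer all of whose prime factors divide `r`, none with exponent at least 3, is at
most `r ^ 2`. -/
lemma PkX.le_sq {N r : ℕ} (hN : N ≠ 0) (hr : r ≠ 0)
    (h : ∀ p : ℕ, p.Prime → p ∣ N → p ∣ r ∧ ¬ p ^ 3 ∣ N) : N ≤ r ^ 2 := by
  apply Nat.le_of_dvd (by positivity)
  rw [← Nat.factorization_prime_le_iff_dvd hN (pow_ne_zero 2 hr)]
  intro p hp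
  by_cases hpN : p ∣ N
  · obtain ⟨h1, h2⟩ := h p hp hpN
    have h3 : N.factorization p ≤ 2 := by
      by_contra hc
      push Not at hc
      exact h2 ((hp.pow_dvd_iff_le_factorization hN).mpr hc)
    have h4 : 1 ≤ r.factorization p :=
      (hp.dvd_iff_one_le_factorization hr).mp h1
    rw [Nat.factorization_pow]
    simp only [Finsupp.smul_apply, smul_eq_mul]
    omega
  · rw [Nat.factorization_eq_zero_of_not_dvd hpN]
    exact Nat.zero_le _

lemma PkX.growth {C : ℝ} (hC : 0 < C)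
    (h : ∀ r : ℕ, 1 ≤ r → (2 : ℝ) ^ (r.primeFactors.card) * (r : ℝ) ^ ((3 : ℝ) / 4) ≤ C * (r.totient : ℝ)) :
    ∃ r0 : ℕ, ∀ r : ℕ, r0 ≤ r → (r : ℝ) ^ 2 < Real.exp ((r.totient : ℝ) * (Real.log 2 / 2)) := by
  have hl2 : 0 < Real.log 2 := Real.log_pos (by norm_num)
  have hlo := isLittleO_log_rpow_atTop (show (0 : ℝ) < 3 / 4 by norm_num)
  have hc : 0 < Real.log 2 / (8 * C) := by positivity
  have h1 := hlo.def hc
  have h2 := (tendsto_natCast_atTop_atTop (R := ℝ)).eventually h1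
  obtain ⟨r0, hr0⟩ := Filter.eventually_atTop.mp h2
  refine ⟨max r0 1, fun r hr => ?_⟩
  have hr1 : 1 ≤ r := le_trans (le_max_right _ _) hr
  have hr2 : r0 ≤ r := le_trans (le_max_left _ _) hr
  have h3 := hr0 r hr2
  have hrpos : (0 : ℝ) < r := by exact_mod_cast hr1
  have hrp : (0 : ℝ) < (r : ℝ) ^ ((3 : ℝ) / 4) := Real.rpow_pos_of_pos hrpos _
  rw [Real.norm_eq_abs, Real.norm_eq_abs, abs_of_pos hrp] at h3
  have h4 : Real.log r ≤ Real.log 2 / (8 * C) * (r : ℝ) ^ ((3 : ℝ) / 4) := le_trans (le_abs_self _) h3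
  have h5 : (r : ℝ) ^ ((3 : ℝ) / 4) ≤ C * (r.totient : ℝ) := by
    refine le_trans ?_ (h r hr1)
    have : (1 : ℝ) ≤ (2 : ℝ) ^ (r.primeFactors.card) := one_le_pow₀ (by norm_num)
    nlinarith
  have h6 : Real.log 2 / (8 * C) * (r : ℝ) ^ ((3 : ℝ) / 4) ≤ Real.log 2 / 8 * (r.totient : ℝ) := by
    calc Real.log 2 / (8 * C) * (r : ℝ) ^ ((3 : ℝ) / 4)
        ≤ Real.log 2 / (8 * C) * (C * (r.totient : ℝ)) := by
          apply mul_le_mul_of_nonneg_left h5 hc.le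
      _ = Real.log 2 / 8 * (r.totient : ℝ) := by field_simp
  have htot : (0 : ℝ) < r.totient := by exact_mod_cast Nat.totient_pos.mpr hr1
  have h7 : 2 * Real.log r < (r.totient : ℝ) * (Real.log 2 / 2) := by nlinarith
  calc (r : ℝ) ^ 2 = Real.exp (2 * Real.log r) := by
        rw [two_mul, Real.exp_add, Real.exp_log hrpos, sq]
    _ < Real.exp ((r.totient : ℝ) * (Real.log 2 / 2)) := Real.exp_lt_exp.mpr h7

theorem PkX.thm (hlb : G_LB) (hvb : G_VB) (h4 : G_RK4) (h2 : G_RK2) (hn : G_NT) : G_X := by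
  intro T M η hctx N hN
  have hl2 : 0 < Real.log 2 := Real.log_pos (by norm_num)
  obtain ⟨C, hC, hC1⟩ := hn
  obtain ⟨r1, hr1⟩ := PkX.growth hC hC1
  obtain ⟨r2, hr2⟩ := hlb T M η hctx N hN (Real.log 2 / 2) (by positivity)
  obtain ⟨r3, hr3⟩ := hvb T M η hctx N hN
  refine ⟨max (max r1 r2) (max r3 1), fun r hr => ?_⟩
  have a1 : r1 ≤ r := le_trans (le_trans (le_max_left _ _) (le_max_left _ _)) hr
  have a2 : r2 ≤ r := le_trans (le_trans (le_max_right _ _) (le_max_left _ _)) hr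
  have a3 : r3 ≤ r := le_trans (le_trans (le_max_left _ _) (le_max_right _ _)) hr
  have a4 : 1 ≤ r := le_trans (le_trans (le_max_right _ _) (le_max_right _ _)) hr
  have b1 := hr1 r a1
  have b2 := hr2 r a2
  have hM : (2 : ℝ) ≤ (M : ℝ) := by exact_mod_cast hctx.hM
  have hlM : Real.log 2 ≤ Real.log M := Real.log_le_log (by norm_num) hM
  have b3 : Real.exp ((r.totient : ℝ) * (Real.log 2 / 2)) ≤
      Real.exp ((r.totient : ℝ) * (Real.log M - Real.log 2 / 2)) := by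
    apply Real.exp_le_exp.mpr
    apply mul_le_mul_of_nonneg_left _ (Nat.cast_nonneg _)
    linarith
  have b4 : (r : ℝ) ^ 2 < (N r : ℝ) := lt_of_lt_of_le b1 (le_trans b3 b2)
  have b5 : r ^ 2 < N r := by exact_mod_cast b4
  have hex : ∃ p : ℕ, p.Prime ∧ p ∣ N r ∧ ¬ p ∣ r := by
    by_contra hc
    push Not at hc
    have : N r ≤ r ^ 2 := by
      apply PkX.le_sq (by omega) (by omega)
      intro p hp hpN
      exact ⟨hc p hp hpN, hr3 r a3 p hp (hc p hp hpN)⟩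
    omega
  obtain ⟨p, hp, hpN, hpr⟩ := hex
  have hpM : ¬ (p : ℤ) ∣ M := fun hpM => (h4 T M η hctx N hN r p a4 hp hpM).2 hpN
  exact ⟨p, hp, hpM, h2 T M η hctx N hN r p a4 hp hpr hpM hpN⟩

end Pool.Agent.Helper59.LUC
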